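import Pool.Agent.Helper12.MA.StC
import Pool.Agent.Helper12.MA.Lib

/-!
# Project MA, module PVB: `v` is adjacent neither to `p` nor to `q`
-/

set_option autoImplicit false

namespace Pool.Agent.Helper71.MA

open Pool.Agent.Helper12.MA
open Pool.Agent.Helper51.AJ (IsMinor Planar Apex ExMinor Con Tch)
open Pool.Agent.Helper12.NK (rst Kc add cnt Pcy IsFace Cof plus)

private theorem dl_comm {V : Type} (G : SimpleGraph V) (x y : V) : dl G y x = dl G x y := by
  ext a b
  constructor
  · rintro ⟨h, h1, h2⟩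
    exact ⟨h, h2, h1⟩
  · rintro ⟨h, h1, h2⟩
    exact ⟨h, h2, h1⟩

private theorem pvp (hS : StSYM) (hB : StBAS) (hC : StCRN) (hA : StPVA)
    (V : Type) [Finite V] (G : SimpleGraph V) (z v p q r r' : V) (f1 f2 f3 f4 : Set V)
    (h : Cfg G z v p q r r' f1 f2 f3 f4) : ¬ G.Adj v p := by
  classical
  intro hvp
  obtain ⟨w1, hw1, w2, hw2, hz1, hz2, hN, -⟩ := hA V G z v p q r r' f1 f2 f3 f4 h hvp
  have hvq : G.Adj v q := (hN q).2 (by simp)
  have h' := (hS V G z v p q r r' f1 f2 f3 f4 h).1
  obtain ⟨u1, -, u2, -, -, -, -, hTP⟩ := hA V G z v q p r' r f3 f4 f1 f2 h' hvq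
  obtain ⟨-, -, -, h5, -, h6, -⟩ := hB V G h.bh
  -- the five neighbours of `v` are different
  have hNset : {a | G.Adj v a} = ({z, p, q, w1, w2} : Set V) := by
    ext a
    simp [hN a]
  have hcard : 5 ≤ ({z, p, q, w1, w2} : Set V).ncard := by
    have := h5 v
    rwa [hNset] at this
  have card4 : ∀ a b c d : V, ({a, b, c, d} : Set V).ncard ≤ 4 := by
    intro a b c d
    calc ({a, b, c, d} : Set V).ncard ≤ ({b, c, d} : Set V).ncard + 1 := Set.ncard_insert_le _ _
      _ ≤ (({c, d} : Set V).ncard + 1) + 1 := by gcongr; exact Set.ncard_insert_le _ _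
      _ ≤ ((({d} : Set V).ncard + 1) + 1) + 1 := by gcongr; exact Set.ncard_insert_le _ _
      _ = 4 := by rw [Set.ncard_singleton]
  have n1p : w1 ≠ p := by
    rintro rfl
    have : ({z, w1, q, w1, w2} : Set V) = {z, w1, q, w2} := by
      ext a; simp; tauto
    rw [this] at hcard
    have := card4 z w1 q w2
    omega
  have n2p : w2 ≠ p := by
    rintro rfl
    have : ({z, w2, q, w1, w2} : Set V) = {z, w2, q, w1} := by
      ext a; simp; tauto
    rw [this] at hcard
    have := card4 z w2 q w1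
    omega
  have n1q : w1 ≠ q := by
    rintro rfl
    have : ({z, p, w1, w1, w2} : Set V) = {z, p, w1, w2} := by
      ext a; simp
    rw [this] at hcard
    have := card4 z p w1 w2
    omega
  have n2q : w2 ≠ q := by
    rintro rfl
    have : ({z, p, w2, w1, w2} : Set V) = {z, p, w2, w1} := by
      ext a; simp; tauto
    rw [this] at hcard
    have := card4 z p w2 w1
    omega
  obtain ⟨c1, -, -, c4, -, -⟩ := hC V G z v p q r r' f1 f2 f3 f4 h
  have e2 : w2 = r := by
    have hmem : w2 ∈ {a | G.Adj v a} \ {z, p} := by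
      refine ⟨(hN w2).2 (by simp), ?_⟩
      simp [hz2, n2p]
    have hc := hTP hmem
    simp only [Set.mem_setOf_eq] at hc
    rcases hc with hc | hc
    · exact absurd hc n2q
    · rw [dl_comm G p q] at hc
      exact c1 w2 hw2 hz2 hc
  have e1 : w1 = r' := by
    have hmem : w1 ∈ {a | G.Adj v a} \ {z, p} := by
      refine ⟨(hN w1).2 (by simp), ?_⟩
      simp [hz1, n1p]
    have hc := hTP hmem
    simp only [Set.mem_setOf_eq] at hc
    rcases hc with hc | hc
    · exact absurd hc n1q
    · rw [dl_comm G p q] at hc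
      exact c4 w1 hw1 hz1 hc
  -- `{v, z}` has at most four neighbours
  have hsub : Nb G {v, z} ⊆ ({p, q, r, r'} : Set V) := by
    rintro b ⟨hb, a, ha, hab⟩
    simp only [Set.mem_insert_iff, Set.mem_singleton_iff, not_or] at hb ha
    rcases ha with rfl | rfl
    · have := (hN b).1 hab
      simp only [Set.mem_insert_iff, Set.mem_singleton_iff]
      rw [e1, e2] at this
      tauto
    · have := (h.ds.nb b).1 hab
      simp only [Set.mem_insert_iff, Set.mem_singleton_iff]
      tauto
  have hn4 : (Nb G {v, z}).ncard ≤ 4 := le_trans (Set.ncard_le_ncard hsub (Set.toFinite _)) (card4 p q r r')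
  have huniv := h6 {v, z} ⟨v, by simp⟩ hn4
  have h8 := h.bh.n8
  have : Nat.card V ≤ 2 + 4 := by
    rw [← Set.ncard_univ, ← huniv]
    refine le_trans (Set.ncard_union_le _ _) ?_
    have h2 : ({v, z} : Set V).ncard ≤ 2 := by
      calc ({v, z} : Set V).ncard ≤ ({z} : Set V).ncard + 1 := Set.ncard_insert_le _ _
        _ = 2 := by rw [Set.ncard_singleton]
    omega
  omega

theorem hPVB : StSYM → StBAS → StCRN → StPVA → StPVB := by
  intro hS hB hC hA V _ G z v p q r r' f1 f2 f3 f4 h
  exact ⟨pvp hS hB hC hA V G z v p q r r' f1 f2 f3 f4 h,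
    pvp hS hB hC hA V G z v q p r' r f3 f4 f1 f2 (hS V G z v p q r r' f1 f2 f3 f4 h).1⟩

end Pool.Agent.Helper71.MA
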